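import Pool.Agent.H87.EBK.Stmts

/-!
Row VTX of the board `ebk` (MP_93721d_nt): every positive rational is in rich pairs, outside a given finite set.
-/

namespace Pool.EBK

theorem vtx_even (n : ℕ) (s : ℚ) (hn : n ≠ 0) (h2 : 2 ∣ n) (hs : s ≠ 0) :
    v s < v ((n : ℚ) * s) := by
  have hnq : (n : ℚ) ≠ 0 := by exact_mod_cast hn
  have h1 : v ((n : ℚ) * s) = v (n : ℚ) + v s := padicValRat.mul hnq hs
  have h3 : v (n : ℚ) = (padicValNat 2 n : ℤ) := padicValRat.of_nat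
  have h4 : 1 ≤ padicValNat 2 n := one_le_padicValNat_of_dvd hn h2
  rw [h1, h3]
  omega

theorem vtx_odd (n : ℕ) (s : ℚ) (hn : n ≠ 0) (h2 : ¬ 2 ∣ n) (hs : s ≠ 0) :
    v ((n : ℚ) * s) = v s := by
  have hnq : (n : ℚ) ≠ 0 := by exact_mod_cast hn
  have h1 : v ((n : ℚ) * s) = v (n : ℚ) + v s := padicValRat.mul hnq hs
  have h3 : v (n : ℚ) = (padicValNat 2 n : ℤ) := padicValRat.of_nat
  rw [h1, h3, padicValNat.eq_zero_of_not_dvd h2]
  simp

theorem vtx (h : STP) : VTX := by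
  intro q F hq
  obtain ⟨s, hs⟩ : ∃ s : ℚ, s = q / 44 := ⟨_, rfl⟩
  have hs0 : 0 < s := by
    rw [hs]
    positivity
  have hqs : q = 44 * s := by
    rw [hs]
    ring
  have hr : Rich q (240 * s) := by
    refine ⟨⟨hq, by positivity, 244 * s, ?_⟩, 117 * s, ⟨by positivity, ⟨125 * s, ?_⟩,
      ⟨267 * s, ?_⟩⟩, ?_, ?_⟩
    · rw [hqs]
      ring
    · rw [hqs]
      ring
    · ring
    · have h1 := vtx_odd 117 s (by norm_num) (by norm_num) hs0.ne'
      have h2 := vtx_even 44 s (by norm_num) (by norm_num) hs0.ne'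
      push_cast at h1 h2
      rw [h1, hqs]
      exact h2
    · have h1 := vtx_odd 117 s (by norm_num) (by norm_num) hs0.ne'
      have h2 := vtx_even 240 s (by norm_num) (by norm_num) hs0.ne'
      push_cast at h1 h2
      rw [h1]
      exact h2
  obtain ⟨c, hc, ht, h1, -⟩ := h q (240 * s) F hr
  exact ⟨c, hc, ht.1, h1⟩

end Pool.EBK
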